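import Mathlib

/-!
# Harnack's inequality for functions with positive real part
-/

set_option autoImplicit false

open Set Filter Metric Topology Complex

namespace Pool.Agent.X151.MH

theorem harnack_strict {q : ℂ → ℂ} {c : ℂ} {R : ℝ} (hR : 0 < R)
    (hq : DifferentiableOn ℂ q (ball c R)) (hre : ∀ z ∈ ball c R, 0 < (q z).re) {z : ℂ}
    (hz : z ∈ ball c R) : (R - ‖z - c‖) * (q c).re ≤ (R + ‖z - c‖) * (q z).re := by
  have hc : c ∈ ball c R := mem_ball_self hR
  set G : ℂ → ℂ := fun z => (q z - q c) / (q z + (starRingEnd ℂ) (q c)) with hG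
  have hden : ∀ x ∈ ball c R, q x + (starRingEnd ℂ) (q c) ≠ 0 := by
    intro x hx h
    have h1 := congrArg Complex.re h
    rw [add_re, conj_re, zero_re] at h1
    have h2 := hre x hx
    have h3 := hre c hc
    linarith
  have hGc : G c = 0 := by simp [hG]
  have hGd : DifferentiableOn ℂ G (ball c R) :=
    (hq.sub_const _).div (hq.add_const _) hden
  have hGm : ∀ x ∈ ball c R, ‖G x‖ ≤ 1 := by
    intro x hx
    rw [hG]
    simp only [norm_div]
    rw [div_le_one (norm_pos_iff.2 (hden x hx))]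
    have h1 : ‖q x - q c‖ ^ 2 ≤ ‖q x + (starRingEnd ℂ) (q c)‖ ^ 2 := by
      rw [← Complex.normSq_eq_norm_sq, ← Complex.normSq_eq_norm_sq, Complex.normSq_apply,
        Complex.normSq_apply]
      simp only [sub_re, sub_im, add_re, add_im, conj_re, conj_im]
      have h2 := hre x hx
      have h3 := hre c hc
      nlinarith [mul_pos h2 h3]
    exact le_of_sq_le_sq h1 (norm_nonneg _)
  have h4 := Complex.dist_le_div_mul_dist_of_mapsTo_ball (f := G) (c := c) (R₁ := R) (R₂ := 1) hGd
    (by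
      intro x hx
      rw [hGc, mem_closedBall_zero_iff]
      exact hGm x hx) hz
  rw [hGc, dist_zero_right, dist_eq_norm] at h4
  set s : ℝ := 1 / R * ‖z - c‖ with hs
  have hs0 : 0 ≤ s := by positivity
  have h5 : ‖q z - q c‖ ≤ s * ‖q z + (starRingEnd ℂ) (q c)‖ := by
    have : q z - q c = G z * (q z + (starRingEnd ℂ) (q c)) := by
      rw [hG]
      simp only
      rw [div_mul_cancel₀ _ (hden z hz)]
    rw [this, norm_mul]
    exact mul_le_mul_of_nonneg_right h4 (norm_nonneg _)
  have hs1 : s < 1 := by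
    rw [hs, one_div, inv_mul_lt_iff₀ hR, mul_one]
    rw [mem_ball_iff_norm] at hz
    exact hz
  have h6 : ((q z).re - (q c).re) ^ 2 ≤ (s * ((q z).re + (q c).re)) ^ 2 := by
    have h7 : ‖q z - q c‖ ^ 2 ≤ (s * ‖q z + (starRingEnd ℂ) (q c)‖) ^ 2 :=
      pow_le_pow_left₀ (norm_nonneg _) h5 2
    rw [mul_pow, ← Complex.normSq_eq_norm_sq, ← Complex.normSq_eq_norm_sq, Complex.normSq_apply,
      Complex.normSq_apply] at h7
    simp only [sub_re, sub_im, add_re, add_im, conj_re, conj_im] at h7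
    have h8 : s ^ 2 ≤ 1 := by nlinarith
    have h9 : 0 ≤ ((q z).im - (q c).im) ^ 2 := sq_nonneg _
    nlinarith [mul_le_mul_of_nonneg_right h8 h9]
  have h7 : (q c).re - (q z).re ≤ s * ((q z).re + (q c).re) := by
    have h2 := hre z hz
    have h3 := hre c hc
    have h8 : |(q c).re - (q z).re| ≤ |s * ((q z).re + (q c).re)| := by
      rw [abs_sub_comm]
      exact sq_le_sq.mp h6
    rw [abs_of_nonneg (a := s * ((q z).re + (q c).re)) (by positivity)] at h8
    exact (le_abs_self _).trans h8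
  have h8 : R * ((q c).re - (q z).re) ≤ ‖z - c‖ * ((q z).re + (q c).re) := by
    calc R * ((q c).re - (q z).re) ≤ R * (s * ((q z).re + (q c).re)) :=
          mul_le_mul_of_nonneg_left h7 hR.le
      _ = ‖z - c‖ * ((q z).re + (q c).re) := by rw [hs]; field_simp
  linarith

theorem harnack {q : ℂ → ℂ} {c : ℂ} {R : ℝ} (hR : 0 < R) (hq : DifferentiableOn ℂ q (ball c R))
    (hre : ∀ z ∈ ball c R, 0 ≤ (q z).re) {z : ℂ} (hz : z ∈ ball c R) :
    (R - ‖z - c‖) * (q c).re ≤ (R + ‖z - c‖) * (q z).re := by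
  have key : ∀ ε : ℝ, ε ∈ Ioi (0:ℝ) → (R - ‖z - c‖) * ((q c).re + ε) ≤
      (R + ‖z - c‖) * ((q z).re + ε) := by
    intro ε hε
    have h := harnack_strict (q := fun z => q z + (ε : ℂ)) hR (hq.add_const _) (by
      intro x hx
      rw [add_re, ofReal_re]
      exact add_pos_of_nonneg_of_pos (hre x hx) hε) hz
    simpa using h
  have l1 : Tendsto (fun ε : ℝ => (R - ‖z - c‖) * ((q c).re + ε)) (𝓝[>] 0)
      (𝓝 ((R - ‖z - c‖) * (q c).re)) := by
    have : ContinuousAt (fun ε : ℝ => (R - ‖z - c‖) * ((q c).re + ε)) 0 := by fun_prop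
    have h2 := this.tendsto
    simp only [add_zero] at h2
    exact h2.mono_left nhdsWithin_le_nhds
  have l2 : Tendsto (fun ε : ℝ => (R + ‖z - c‖) * ((q z).re + ε)) (𝓝[>] 0)
      (𝓝 ((R + ‖z - c‖) * (q z).re)) := by
    have : ContinuousAt (fun ε : ℝ => (R + ‖z - c‖) * ((q z).re + ε)) 0 := by fun_prop
    have h2 := this.tendsto
    simp only [add_zero] at h2
    exact h2.mono_left nhdsWithin_le_nhds
  apply le_of_tendsto_of_tendsto l1 l2
  filter_upwards [self_mem_nhdsWithin] with ε hε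
  exact key ε hε

end Pool.Agent.X151.MH
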