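import Mathlib
import Pool.Agent.X151.MH.Harn
import Pool.Agent.H713R2.AR.SP3

/-!
# Harnack's inequality for the moments of a holomorphically moving compact set
-/

set_option autoImplicit false

open Complex Topology Filter Metric MeasureTheory Set Polynomial

namespace Pool.Agent.X151.MH

open Pool.Agent.H713R2 Pool.Agent.H713R2.AR

/-- The area formula for a combination of Faber polynomials. -/
theorem area_comb {R ρ : ℝ} (hρ : 0 < ρ) (hρR : ρ < R) {g : ℂ → ℂ} (hg : IsExt R g)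
    (w : ℕ → ℂ) (N : ℕ) :
    HasSum (fun j : ℕ => ((j : ℝ) + 1) * ρ ^ (2 * (j + 1)) *
      ‖∑ n ∈ Finset.range N, w n * hb (pc g) (n + 1) (n + 1 + (j + 1))‖ ^ 2)
    (∑ n ∈ Finset.range N, ((n : ℝ) + 1) * (ρ ^ (2 * (n + 1)))⁻¹ * ‖w n‖ ^ 2 -
      1 / Real.pi * ∫ z in (UU g ρ)ᶜ, ‖(derivative (∑ n ∈ Finset.range N,
        C (w n) * Fb (pc g) (n + 1))).eval z‖ ^ 2) := by
  have hR : 0 < R := hρ.trans hρR
  have ha := pc_zero hg
  set H : ℂ → ℂ := fun x => ∑ n ∈ Finset.range N, w n * (x ^ (N - 1 - n) * Hb g (pc g) (n + 1) x)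
    with hH
  have hHd : DifferentiableOn ℂ H (ball 0 R) := by
    apply DifferentiableOn.fun_sum
    intro n _
    exact ((differentiableOn_pow _).mul (Hb_diff hg.diff _ _)).const_mul _
  set Q : ℂ[X] := ∑ n ∈ Finset.range N, C (w n) * Fb (pc g) (n + 1) with hQ
  have hHQ : ∀ x ∈ ball (0 : ℂ) R, x ≠ 0 → H x = x ^ N * Q.eval (x⁻¹ * g x) := by
    intro x _ hx0
    rw [hH, hQ, eval_finsetSum, Finset.mul_sum]
    apply Finset.sum_congr rfl
    intro n hn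
    have hn' := Finset.mem_range.mp hn
    rw [Hb_eval g _ hx0, eval_mul, eval_C]
    have h1 : x ^ N = x ^ (N - 1 - n) * x ^ (n + 1) := by
      rw [← pow_add]; congr 1; omega
    rw [h1]; ring
  obtain ⟨hsum, -⟩ := area_formula hρ hρR hg hHd hHQ
  have hlow : ∀ k < N, tc H k = w (N - 1 - k) := by
    intro k hk
    rw [hH, tc_comb hR hg.diff, Finset.sum_eq_single (N - 1 - k)]
    · rw [if_pos (by omega), show k - (N - 1 - (N - 1 - k)) = 0 by omega, hb_zero ha, mul_one]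
    · intro n hn hne
      have hn' := Finset.mem_range.mp hn
      split_ifs with h
      · rw [hb_vanish ha _ _ (by omega) (by omega), mul_zero]
      · rw [mul_zero]
    · intro h
      exact absurd (Finset.mem_range.mpr (by omega)) h
  have hhigh : ∀ j, tc H (N + 1 + j) =
      ∑ n ∈ Finset.range N, w n * hb (pc g) (n + 1) (n + 1 + (j + 1)) := by
    intro j
    rw [hH, tc_comb hR hg.diff]
    apply Finset.sum_congr rfl
    intro n hn
    have hn' := Finset.mem_range.mp hn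
    rw [if_pos (by omega)]
    congr 2
    omega
  have h1 : ∑ k ∈ Finset.range N, ((N : ℝ) - k) * (‖tc H k‖ ^ 2 * ρ ^ (2 * k)) =
      ρ ^ (2 * N) * ∑ n ∈ Finset.range N, ((n : ℝ) + 1) * (ρ ^ (2 * (n + 1)))⁻¹ * ‖w n‖ ^ 2 := by
    rw [← Finset.sum_range_reflect, Finset.mul_sum]
    apply Finset.sum_congr rfl
    intro n hn
    have hn' := Finset.mem_range.mp hn
    rw [hlow _ (by omega), show N - 1 - (N - 1 - n) = n by omega]
    have h2 : ((N - 1 - n : ℕ) : ℝ) = (N : ℝ) - 1 - n := by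
      rw [Nat.sub_sub, Nat.cast_sub (by omega)]; push_cast; ring
    rw [h2]
    have h3 : ρ ^ (2 * N) = ρ ^ (2 * (N - 1 - n)) * ρ ^ (2 * (n + 1)) := by
      rw [← pow_add]; congr 1; omega
    rw [h3]
    have h4 : ρ ^ (2 * (n + 1)) ≠ 0 := pow_ne_zero _ hρ.ne'
    field_simp
    ring
  rw [← hasSum_nat_add_iff' (N + 1), Finset.sum_range_succ, sub_self, zero_mul, add_zero,
    h1] at hsum
  have h5 := hsum.mul_left (-(ρ ^ (2 * N))⁻¹)
  have hρm : ρ ^ (2 * N) ≠ 0 := pow_ne_zero _ hρ.ne'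
  convert! h5 using 1
  · funext j
    rw [show j + (N + 1) = N + 1 + j by ring, hhigh]
    rw [show 2 * (N + 1 + j) = 2 * N + 2 * (j + 1) by ring, pow_add]
    push_cast
    field_simp
    ring
  · field_simp
    ring

/-- The combination of Faber polynomials. -/
noncomputable def Qc (g : ℂ → ℂ) (w : ℕ → ℂ) (N : ℕ) : ℂ[X] :=
  ∑ n ∈ Finset.range N, C (w n) * Fb (pc g) (n + 1)

theorem cauchy_schwarz {J : ℕ} {p : ℕ → ℝ} (hp : ∀ j, 0 ≤ p j) (a b : ℕ → ℂ) :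
    ‖∑ j ∈ Finset.range J, (p j : ℂ) * ((starRingEnd ℂ) (a j) * b j)‖ ≤
      √(∑ j ∈ Finset.range J, p j * ‖a j‖ ^ 2) * √(∑ j ∈ Finset.range J, p j * ‖b j‖ ^ 2) := by
  have h1 : ‖∑ j ∈ Finset.range J, (p j : ℂ) * ((starRingEnd ℂ) (a j) * b j)‖ ≤
      ∑ j ∈ Finset.range J, (√(p j) * ‖a j‖) * (√(p j) * ‖b j‖) := by
    refine (norm_sum_le _ _).trans (Finset.sum_le_sum fun j _ => le_of_eq ?_)
    rw [norm_mul, norm_mul, RCLike.norm_conj, Complex.norm_real, Real.norm_eq_abs,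
      abs_of_nonneg (hp j)]
    have := Real.mul_self_sqrt (hp j)
    calc p j * (‖a j‖ * ‖b j‖) = (√(p j) * √(p j)) * (‖a j‖ * ‖b j‖) := by rw [this]
      _ = _ := by ring
  refine h1.trans ((Real.sum_mul_le_sqrt_mul_sqrt _ _ _).trans (le_of_eq ?_))
  congr 2 <;>
  · congr 1
    ext j
    rw [mul_pow, Real.sq_sqrt (hp j)]

/-- Harnack's inequality for the moments. -/
theorem family_harnack {R ρ : ℝ} (hρ : 0 < ρ) (hρR : ρ < R) {g : ℂ → ℂ → ℂ}
    (hg : ∀ t ∈ ball (0 : ℂ) 1, IsExt R (g t))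
    (hhol : ∀ n j, DifferentiableOn ℂ (fun t => pc (g t) n j) (ball 0 1))
    (w : ℕ → ℂ) (N : ℕ) {τ : ℂ} (hτ : τ ∈ ball (0 : ℂ) 1) :
    (1 - ‖τ‖) * ∫ z in (UU (g 0) ρ)ᶜ, ‖(derivative (Qc (g 0) w N)).eval z‖ ^ 2 ≤
      (1 + ‖τ‖) * ∫ z in (UU (g τ) ρ)ᶜ, ‖(derivative (Qc (g τ) w N)).eval z‖ ^ 2 := by
  have h0 : (0 : ℂ) ∈ ball (0 : ℂ) 1 := mem_ball_self one_pos
  have hpi := Real.pi_pos
  have hτ1 : ‖τ‖ < 1 := mem_ball_zero_iff.mp hτ
  set M : ℂ → ℝ := fun t => ∫ z in (UU (g t) ρ)ᶜ, ‖(derivative (Qc (g t) w N)).eval z‖ ^ 2 with hM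
  have hM0 : ∀ t, 0 ≤ M t := fun t => by
    rw [hM]; apply integral_nonneg; intro z; positivity
  set Cc : ℝ := ∑ n ∈ Finset.range N, ((n : ℝ) + 1) * (ρ ^ (2 * (n + 1)))⁻¹ * ‖w n‖ ^ 2 with hCc
  have hCc0 : 0 ≤ Cc := Finset.sum_nonneg fun n _ => by positivity
  set B : ℂ → ℕ → ℂ := fun t j =>
    ∑ n ∈ Finset.range N, w n * hb (pc (g t)) (n + 1) (n + 1 + (j + 1)) with hB
  set p : ℕ → ℝ := fun j => ((j : ℝ) + 1) * ρ ^ (2 * (j + 1)) with hp
  have hp0 : ∀ j, 0 ≤ p j := fun j => by rw [hp]; positivity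
  have hsum : ∀ t ∈ ball (0 : ℂ) 1, HasSum (fun j => p j * ‖B t j‖ ^ 2) (Cc - 1 / Real.pi * M t) :=
    fun t ht => area_comb hρ hρR (hg t ht) w N
  have hBd : ∀ j, DifferentiableOn ℂ (fun t => B t j) (ball 0 1) := by
    intro j
    apply DifferentiableOn.fun_sum
    intro n _
    exact (hb_differentiableOn hhol (n + 1) (n + 1 + (j + 1))).const_mul _
  set P : ℂ → ℕ → ℝ := fun t J => ∑ j ∈ Finset.range J, p j * ‖B t j‖ ^ 2 with hP
  have hPle : ∀ t ∈ ball (0 : ℂ) 1, ∀ J, P t J ≤ Cc - 1 / Real.pi * M t := fun t ht J =>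
    sum_le_hasSum _ (fun j _ => mul_nonneg (hp0 j) (by positivity)) (hsum t ht)
  have hP0 : ∀ t J, 0 ≤ P t J := fun t J =>
    Finset.sum_nonneg fun j _ => mul_nonneg (hp0 j) (by positivity)
  have hPC : ∀ t ∈ ball (0 : ℂ) 1, ∀ J, P t J ≤ Cc := fun t ht J => by
    have h1 := hPle t ht J
    have h2 : 0 ≤ 1 / Real.pi * M t := mul_nonneg (by positivity) (hM0 t)
    linarith
  set s₀ : ℝ := √(Cc - 1 / Real.pi * M 0) with hs₀
  set sτ : ℝ := √(Cc - 1 / Real.pi * M τ) with hsτ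
  have hn0 : 0 ≤ Cc - 1 / Real.pi * M 0 := (hP0 0 0).trans (hPle 0 h0 0)
  have hnτ : 0 ≤ Cc - 1 / Real.pi * M τ := (hP0 τ 0).trans (hPle τ hτ 0)
  -- the inequality for the partial sums
  have key : ∀ J, (1 - ‖τ‖) * (√Cc - s₀) ≤ (1 + ‖τ‖) * (√Cc - √(P τ J)) := by
    intro J
    set s : ℝ := √(P τ J) with hs
    have hs0 : 0 ≤ s := Real.sqrt_nonneg _
    have hss : s * s = P τ J := Real.mul_self_sqrt (hP0 τ J)
    rcases hs0.eq_or_lt with hz | hspos
    · rw [← hz, sub_zero]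
      have h1 : 0 ≤ √Cc := Real.sqrt_nonneg _
      have h2 : 0 ≤ s₀ := Real.sqrt_nonneg _
      have h3 := norm_nonneg τ
      nlinarith [mul_nonneg h3 h1, mul_nonneg (sub_nonneg.mpr hτ1.le) h2]
    · set h : ℂ → ℂ := fun t => ∑ j ∈ Finset.range J,
        (p j : ℂ) * ((starRingEnd ℂ) (B τ j) * B t j) with hh
      have hhd : DifferentiableOn ℂ h (ball 0 1) := by
        apply DifferentiableOn.fun_sum
        intro j _
        exact ((hBd j).const_mul _).const_mul _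
      have hhn : ∀ t ∈ ball (0 : ℂ) 1, ‖h t‖ ≤ s * √(P t J) := fun t ht =>
        cauchy_schwarz hp0 (B τ) (B t)
      have hhτ : h τ = ((s * s : ℝ) : ℂ) := by
        rw [hss, hP, hh]
        simp only
        rw [Complex.ofReal_sum]
        apply Finset.sum_congr rfl
        intro j _
        push_cast
        congr 1
        rw [← Complex.normSq_eq_conj_mul_self, ← Complex.sq_norm]
        push_cast
        rfl
      have hha := harnack (q := fun t => ((√Cc * s : ℝ) : ℂ) - h t) one_pos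
        ((differentiableOn_const _).sub hhd) (fun t ht => by
          rw [Complex.sub_re, Complex.ofReal_re, sub_nonneg]
          refine (Complex.re_le_norm _).trans ((hhn t ht).trans ?_)
          rw [mul_comm]
          exact mul_le_mul_of_nonneg_right (Real.sqrt_le_sqrt (hPC t ht J)) hs0) hτ
      rw [sub_zero, hhτ, Complex.sub_re, Complex.ofReal_re, Complex.sub_re, Complex.ofReal_re,
        Complex.ofReal_re] at hha
      have h1 : (h 0).re ≤ s * s₀ := by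
        refine (Complex.re_le_norm _).trans ((hhn 0 h0).trans ?_)
        exact mul_le_mul_of_nonneg_left (Real.sqrt_le_sqrt (hPle 0 h0 J)) hs0
      have h2 : s * ((1 - ‖τ‖) * (√Cc - s₀)) ≤ s * ((1 + ‖τ‖) * (√Cc - s)) := by
        have h3 : 0 ≤ 1 - ‖τ‖ := by linarith
        nlinarith [mul_le_mul_of_nonneg_left h1 h3]
      exact le_of_mul_le_mul_left h2 hspos
  have hlim : (1 - ‖τ‖) * (√Cc - s₀) ≤ (1 + ‖τ‖) * (√Cc - sτ) := by
    have h1 : Tendsto (fun J => √(P τ J)) atTop (𝓝 sτ) :=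
      (Real.continuous_sqrt.tendsto _).comp (hsum τ hτ).tendsto_sum_nat
    exact ge_of_tendsto' ((h1.const_sub (√Cc)).const_mul (1 + ‖τ‖)) key
  have e1 : s₀ * s₀ = Cc - 1 / Real.pi * M 0 := Real.mul_self_sqrt hn0
  have e2 : sτ * sτ = Cc - 1 / Real.pi * M τ := Real.mul_self_sqrt hnτ
  have e3 : √Cc * √Cc = Cc := Real.mul_self_sqrt hCc0
  have g0 : 0 ≤ s₀ := Real.sqrt_nonneg _
  have gτ : 0 ≤ sτ := Real.sqrt_nonneg _
  have gC : 0 ≤ √Cc := Real.sqrt_nonneg _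
  have h3 : s₀ ≤ √Cc := by
    apply Real.sqrt_le_sqrt
    have h2 : 0 ≤ 1 / Real.pi * M 0 := mul_nonneg (by positivity) (hM0 0)
    linarith
  have h4 : 0 ≤ 1 - ‖τ‖ := by linarith
  have h5 := norm_nonneg τ
  have hfin : (1 - ‖τ‖) * (Cc - s₀ * s₀) ≤ (1 + ‖τ‖) * (Cc - sτ * sτ) := by
    rcases le_or_gt s₀ sτ with hc | hc
    · have h6 : (1 - ‖τ‖) * (√Cc - s₀) * (√Cc + s₀) ≤ (1 + ‖τ‖) * (√Cc - sτ) * (√Cc + sτ) := by
        have h7 : 0 ≤ (1 - ‖τ‖) * (√Cc - s₀) := mul_nonneg h4 (by linarith)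
        exact (mul_le_mul_of_nonneg_left (by linarith : √Cc + s₀ ≤ √Cc + sτ) h7).trans
          (mul_le_mul_of_nonneg_right hlim (by linarith))
      have h7 : (1 - ‖τ‖) * (√Cc - s₀) * (√Cc + s₀) = (1 - ‖τ‖) * (Cc - s₀ * s₀) := by
        linear_combination (1 - ‖τ‖) * e3
      have h8 : (1 + ‖τ‖) * (√Cc - sτ) * (√Cc + sτ) = (1 + ‖τ‖) * (Cc - sτ * sτ) := by
        linear_combination (1 + ‖τ‖) * e3
      rw [h7, h8] at h6
      exact h6
    · have h6 : sτ * sτ ≤ s₀ * s₀ := by nlinarith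
      have h7 : 0 ≤ Cc - s₀ * s₀ := by rw [← e3]; nlinarith
      nlinarith [mul_nonneg h5 h7, mul_nonneg h5 (sub_nonneg.mpr h6)]
  rw [e1, e2, sub_sub_cancel, sub_sub_cancel] at hfin
  have h9 : (1 - ‖τ‖) * M 0 = Real.pi * ((1 - ‖τ‖) * (1 / Real.pi * M 0)) := by field_simp
  have h10 : (1 + ‖τ‖) * M τ = Real.pi * ((1 + ‖τ‖) * (1 / Real.pi * M τ)) := by field_simp
  rw [h9, h10]
  exact mul_le_mul_of_nonneg_left hfin hpi.le

end Pool.Agent.X151.MH
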