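import Mathlib
import Pool.Agent.X151.MH.Fam
import Pool.Agent.H713R2.AR.T1

/-!
# Harnack's inequality for the moments of the filled Julia sets
-/

set_option autoImplicit false

open Complex Topology Filter Metric MeasureTheory Set Polynomial N62a1eb23

namespace Pool.Agent.X151.MH

open Pool.Agent.H713R2 Pool.Agent.H712R2 Pool.Agent.H713R2.AR

theorem compl_UU_eq {d : ℕ} (hd : 2 ≤ d) {G : ℕ → ℂ × ℂ → ℂ} (hG : IsSeq d G) (j : ℕ) {c : ℂ}
    (hc : Bd d c) : (UU (fun x => G j (c, x)) (rho d j))ᶜ = EE d c j := by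
  apply Subset.antisymm (compl_UU_subset hd hG j hc)
  intro z hz hzU
  obtain ⟨x, ⟨hx0, hx⟩, hxz⟩ := hzU
  have hxb : x ∈ ball (0 : ℂ) (rad d j) := by
    rw [mem_ball_zero_iff]
    exact hx.trans (rho_lt hd j)
  have h1 := (hG.isG j).conj c x (mem_AA_of_Bd hd hc hxb) hx0
  simp only at hxz
  rw [hxz] at h1
  have h2 : ‖(fc d c)^[j] z‖ ≤ 3 := hz
  rw [h1, norm_pow, norm_inv, inv_pow] at h2
  have h3 : ‖x‖ ^ (d ^ j) < 1 / 3 := by
    rw [← rho_pow hd j]
    exact pow_lt_pow_left₀ hx (norm_nonneg _) (pow_ne_zero _ (by omega))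
  have h4 : 0 < ‖x‖ ^ (d ^ j) := by have := norm_pos_iff.mpr hx0; positivity
  have h5 : (3 : ℝ) < (‖x‖ ^ (d ^ j))⁻¹ := by
    rw [lt_inv_comm₀ (by norm_num) h4, ← one_div]
    exact h3
  linarith

/-- The Faber polynomials of low degree. -/
theorem Fb_low {d : ℕ} (hd : 2 ≤ d) {G : ℕ → ℂ × ℂ → ℂ} (hG : IsSeq d G) (j : ℕ) {c : ℂ}
    (hc : Bd d c) {m : ℕ} (hm : m < d) : Fb (pc (fun x => G j (c, x))) m = X ^ m := by
  rw [Fb_eq]
  have : ∑ k : Fin m, C (pc (fun x => G j (c, x)) m (m - k)) * Fb (pc (fun x => G j (c, x))) k = 0 := by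
    apply Finset.sum_eq_zero
    intro k _
    rw [pc_low hd hG j hc m _ (by omega) (by omega)]
    simp
  rw [this, sub_zero]

theorem derivative_Qc {d : ℕ} (hd : 2 ≤ d) {G : ℕ → ℂ × ℂ → ℂ} (hG : IsSeq d G) (j : ℕ) {c : ℂ}
    (hc : Bd d c) {p : ℂ[X]} (hp : p.natDegree + 2 ≤ d) :
    derivative (Qc (fun x => G j (c, x)) (fun m => p.coeff m / (m + 1)) (d - 1)) = p := by
  have h1 : Qc (fun x => G j (c, x)) (fun m => p.coeff m / (m + 1)) (d - 1) =
      ∑ m ∈ Finset.range (d - 1), C (p.coeff m / (m + 1)) * X ^ (m + 1) := by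
    apply Finset.sum_congr rfl
    intro m hm
    have := Finset.mem_range.mp hm
    rw [Fb_low hd hG j hc (by omega)]
  rw [h1, derivative_sum]
  have h2 : ∀ m ∈ Finset.range (d - 1), derivative (C (p.coeff m / ((m : ℂ) + 1)) * X ^ (m + 1)) =
      C (p.coeff m) * X ^ m := by
    intro m _
    rw [derivative_C_mul, derivative_X_pow, ← mul_assoc, ← C_mul]
    congr 2
    push_cast
    rw [div_mul_cancel₀]
    exact_mod_cast Nat.succ_ne_zero m
  rw [Finset.sum_congr rfl h2]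
  have h3 := p.as_sum_range' (d - 1) (by omega)
  conv_rhs => rw [h3]
  apply Finset.sum_congr rfl
  intro m _
  rw [C_mul_X_pow_eq_monomial]

/-- The moments of the filled Julia set. -/
noncomputable def Mo (n : ℕ) (p : ℂ[X]) (c : ℂ) : ℝ := ∫ z in KK n c, ‖p.eval z‖ ^ 2

theorem tendsto_Mo {n : ℕ} (hn : 2 ≤ n) {c : ℂ} (hc : ‖c‖ ≤ 2) (p : ℂ[X]) :
    Tendsto (fun j => ∫ z in EE n c j, ‖p.eval z‖ ^ 2) atTop (𝓝 (Mo n p c)) := by
  have hf : Continuous fun z : ℂ => ‖p.eval z‖ ^ 2 := (p.continuous.norm).pow 2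
  have h1 := tendsto_setIntegral_of_antitone (μ := volume) (f := fun z : ℂ => ‖p.eval z‖ ^ 2)
    (s := EE n c)
    (fun j => (isCompact_EE hn hc j).isClosed.measurableSet) (EE_anti hn hc)
    ⟨0, hf.continuousOn.integrableOn_compact (isCompact_EE hn hc 0)⟩
  rw [iInter_EE hn hc] at h1
  exact h1

/-- Harnack's inequality along holomorphic discs in the Multibrot set. -/
theorem disc {n : ℕ} (hn : 2 ≤ n) {p : ℂ[X]} (hp : p.natDegree + 2 ≤ n) {γ : ℂ → ℂ}
    (hγ : DifferentiableOn ℂ γ (ball 0 1)) (hγM : ∀ t ∈ ball (0 : ℂ) 1, γ t ∈ multibrotSet n)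
    {τ : ℂ} (hτ : τ ∈ ball (0 : ℂ) 1) :
    (1 - ‖τ‖) * Mo n p (γ 0) ≤ (1 + ‖τ‖) * Mo n p (γ τ) := by
  have hB : ∀ t ∈ ball (0 : ℂ) 1, Bd n (γ t) := fun t ht => (mem_multibrot_iff hn _).mp (hγM t ht)
  have hB2 : ∀ t ∈ ball (0 : ℂ) 1, ‖γ t‖ ≤ 2 := fun t ht => by
    have := hB t ht 1; rwa [P_one hn] at this
  have h0 : (0 : ℂ) ∈ ball (0 : ℂ) 1 := mem_ball_self one_pos
  obtain ⟨G, hG⟩ := exists_seq hn
  have h1 := (tendsto_Mo hn (hB2 0 h0) p).const_mul (1 - ‖τ‖)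
  have h2 := (tendsto_Mo hn (hB2 τ hτ) p).const_mul (1 + ‖τ‖)
  refine le_of_tendsto_of_tendsto' h1 h2 fun j => ?_
  have h3 := family_harnack (rho_pos n j) (rho_lt hn j) (g := fun t x => G j (γ t, x))
    (fun t ht => isExt_seq hn hG j (hB t ht)) (fun a b => pc_holo hn hG hγ hB j a b)
    (fun m => p.coeff m / (m + 1)) (n - 1) hτ
  rw [derivative_Qc hn hG j (hB 0 h0) hp, derivative_Qc hn hG j (hB τ hτ) hp,
    compl_UU_eq hn hG j (hB 0 h0), compl_UU_eq hn hG j (hB τ hτ)] at h3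
  exact h3

theorem Mo_nonneg (n : ℕ) (p : ℂ[X]) (c : ℂ) : 0 ≤ Mo n p c := by
  unfold Mo
  apply integral_nonneg
  intro z
  positivity

/-- The filled Julia set has area zero outside of the Multibrot set. -/
theorem ball_disc {n : ℕ} (hn : 2 ≤ n) {p : ℂ[X]} (hp : p.natDegree + 2 ≤ n) {c : ℂ} {r : ℝ}
    (hr : 0 < r) (hsub : ball c r ⊆ multibrotSet n) {c' : ℂ} (hc' : c' ∈ ball c r) :
    r * |Mo n p c - Mo n p c'| ≤ ‖c - c'‖ * (Mo n p c + Mo n p c') := by
  set a : ℂ := (c' - c) / r with ha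
  have hrC : (r : ℂ) ≠ 0 := by exact_mod_cast hr.ne'
  have han : ‖a‖ = ‖c - c'‖ / r := by
    rw [ha, norm_div, Complex.norm_real, Real.norm_eq_abs, abs_of_pos hr, norm_sub_rev]
  have ha1 : ‖a‖ < 1 := by
    rw [han, div_lt_one hr, norm_sub_rev]
    rwa [mem_ball_iff_norm] at hc'
  have hac : c + r * a = c' := by rw [ha]; field_simp; ring
  have hmem : ∀ t ∈ ball (0 : ℂ) 1, c + r * t ∈ ball c r := by
    intro t ht
    rw [mem_ball_zero_iff] at ht
    rw [mem_ball_iff_norm, add_sub_cancel_left, norm_mul, Complex.norm_real, Real.norm_eq_abs,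
      abs_of_pos hr]
    nlinarith
  -- the disc centred at `c`
  have h1 := disc hn hp (γ := fun t => c + r * t) (by fun_prop)
    (fun t ht => hsub (hmem t ht)) (τ := a) (mem_ball_zero_iff.mpr ha1)
  -- the disc centred at `c'`
  have hden : ∀ t ∈ ball (0 : ℂ) 1, 1 + (starRingEnd ℂ) a * t ≠ 0 := by
    intro t ht h
    rw [mem_ball_zero_iff] at ht
    have h2 : (starRingEnd ℂ) a * t = -1 := by linear_combination h
    have h3 : ‖(starRingEnd ℂ) a * t‖ = 1 := by rw [h2, norm_neg, norm_one]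
    rw [norm_mul, RCLike.norm_conj] at h3
    nlinarith [norm_nonneg a, norm_nonneg t]
  have hmob : ∀ t ∈ ball (0 : ℂ) 1, (t + a) / (1 + (starRingEnd ℂ) a * t) ∈ ball (0 : ℂ) 1 := by
    intro t ht
    have h2 := norm_pos_iff.mpr (hden t ht)
    rw [mem_ball_zero_iff] at ht ⊢
    rw [norm_div, div_lt_one h2]
    apply lt_of_pow_lt_pow_left₀ 2 (norm_nonneg _)
    rw [← Complex.normSq_eq_norm_sq, ← Complex.normSq_eq_norm_sq, Complex.normSq_apply,
      Complex.normSq_apply]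
    have h3 : ‖t‖ ^ 2 < 1 := by nlinarith [norm_nonneg t]
    have h4 : ‖a‖ ^ 2 < 1 := by nlinarith [norm_nonneg a]
    rw [← Complex.normSq_eq_norm_sq, Complex.normSq_apply] at h3 h4
    simp only [Complex.add_re, Complex.add_im, Complex.mul_re, Complex.mul_im, Complex.one_re,
      Complex.one_im, Complex.conj_re, Complex.conj_im]
    nlinarith [mul_pos (sub_pos.mpr h3) (sub_pos.mpr h4)]
  have hγd : DifferentiableOn ℂ (fun t => c + r * ((t + a) / (1 + (starRingEnd ℂ) a * t)))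
      (ball 0 1) := by
    apply DifferentiableOn.const_add
    apply DifferentiableOn.const_mul
    exact DifferentiableOn.div (by fun_prop) (by fun_prop) hden
  have h2 := disc hn hp (γ := fun t => c + r * ((t + a) / (1 + (starRingEnd ℂ) a * t))) hγd
    (fun t ht => hsub (hmem _ (hmob t ht))) (τ := -a)
    (mem_ball_zero_iff.mpr (by rw [norm_neg]; exact ha1))
  simp only [mul_zero, add_zero, zero_add, neg_add_cancel, zero_div, norm_neg, div_one] at h1 h2
  rw [hac, han] at h1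
  rw [hac, han] at h2
  set A := Mo n p c
  set B := Mo n p c'
  set δ := ‖c - c'‖
  have e1 : r * (1 - δ / r) = r - δ := by field_simp
  have e2 : r * (1 + δ / r) = r + δ := by field_simp
  have h3 : (r - δ) * A ≤ (r + δ) * B := by
    rw [← e1, ← e2, mul_assoc, mul_assoc]
    exact mul_le_mul_of_nonneg_left h1 hr.le
  have h4 : (r - δ) * B ≤ (r + δ) * A := by
    rw [← e1, ← e2, mul_assoc, mul_assoc]
    exact mul_le_mul_of_nonneg_left h2 hr.le
  rw [← abs_of_pos hr, ← abs_mul, abs_le]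
  constructor <;> nlinarith

end Pool.Agent.X151.MH
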